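import Pool.Agent.Helper10.LG.LF
import Pool.Agent.Helper36.LX.Sheet

/-! # LX, row LFR: perturbation of `LFaux.core` -/

set_option autoImplicit false

open MeasureTheory Metric Set Filter Topology
open scoped ENNReal NNReal

namespace H11ST
namespace LX
open LG
namespace LFRaux

theorem xFF_le (x : ℝ) (h0 : 0 ≤ x) (h1 : x ≤ 1) : x * FF x ≤ x ^ 2 := by
  unfold FF
  split_ifs with h
  · have : 0 ≤ x ^ 2 * (1 - 2 * x) := mul_nonneg (sq_nonneg x) (by linarith)
    nlinarith
  · push Not at h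
    have : 0 ≤ x * ((x - 1 / 2) * (3 / 2 - x)) :=
      mul_nonneg h0 (mul_nonneg (by linarith) (by linarith))
    nlinarith

theorem xFF_nonneg (x : ℝ) (h0 : 0 ≤ x) : 0 ≤ x * FF x := by
  unfold FF
  split_ifs with h
  · positivity
  · positivity

theorem uFF_le (a : ℝ) (h0 : 0 ≤ a) (h1 : a ≤ 1) : (1 - a) * (7 / 8 - FF a) ≤ (1 - a) ^ 2 := by
  unfold FF
  split_ifs with h
  · have : 0 ≤ (1 - a) * (a - 1 / 4) ^ 2 := mul_nonneg (by linarith) (sq_nonneg _)
    nlinarith
  · have : 0 ≤ (1 - a) ^ 2 * (1 - a) := mul_nonneg (sq_nonneg _) (by linarith)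
    nlinarith

theorem uFF_nonneg (a : ℝ) (h0 : 0 ≤ a) (h1 : a ≤ 1) : 0 ≤ (1 - a) * (7 / 8 - FF a) := by
  apply mul_nonneg (by linarith)
  unfold FF
  split_ifs with h
  · nlinarith
  · nlinarith

theorem close (l l' N N' : ℝ) (hl : 0 < l) (hl' : 1 / 10 ≤ l') (hN : 0 ≤ N) (hN1 : N ≤ l' ^ 2)
    (hN' : N' ≤ N + 1 / 100000) (h : |l ^ 2 - l' ^ 2| ≤ 2 / 100000) :
    l' + N' / l' ≤ l + N / l + 8 / 1000 := by
  have hl'0 : 0 < l' := by linarith
  obtain ⟨h1, h2⟩ := abs_le.1 h
  have hD : |l - l'| ≤ 2 / 10000 := by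
    have e : |l - l'| * (l + l') = |l ^ 2 - l' ^ 2| := by
      have e1 : l ^ 2 - l' ^ 2 = (l - l') * (l + l') := by ring
      rw [e1, abs_mul, abs_of_pos (by linarith : 0 < l + l')]
    have h3 : |l - l'| * (1 / 10) ≤ |l - l'| * (l + l') :=
      mul_le_mul_of_nonneg_left (by linarith) (abs_nonneg _)
    linarith
  obtain ⟨h3, h4⟩ := abs_le.1 hD
  have s1 : N' / l' ≤ N / l' + 1 / 10000 := by
    rw [div_le_iff₀ hl'0, add_mul, div_mul_cancel₀ _ hl'0.ne']
    linarith
  have s2 : N / l' ≤ N / l + 2 / 10000 := by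
    rw [div_add' _ _ _ hl.ne', div_le_div_iff₀ hl'0 hl]
    rcases le_total l l' with h5 | h5
    · have : N * l ≤ N * l' := mul_le_mul_of_nonneg_left h5 hN
      have : 0 ≤ 2 / 10000 * l * l' := by positivity
      nlinarith
    · have h6 : N ≤ l' * l := by nlinarith
      have h7 : N * (l - l') ≤ (l' * l) * (2 / 10000) :=
        mul_le_mul h6 h4 (by linarith) (by positivity)
      nlinarith
  linarith

end LFRaux

open LFRaux in
theorem lfr : LX_LFR := by
  intro m a x l ha0 ha1 hx0 hsum _ hl hlq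
  have hxs : 0 ≤ ∑ k, x k := Finset.sum_nonneg fun k _ => hx0 k
  have hxle : ∀ k, x k ≤ ∑ k, x k := fun k =>
    Finset.single_le_sum (fun i _ => hx0 i) (Finset.mem_univ k)
  have hx1 : ∀ k, x k ≤ 1 := fun k => by linarith [hxle k]
  have hN0 : 0 ≤ (1 - a) * (7 / 8 - FF a) + ∑ k, x k * FF (x k) :=
    add_nonneg (uFF_nonneg a ha0 ha1) (Finset.sum_nonneg fun k _ => xFF_nonneg _ (hx0 k))
  have hN1 : (1 - a) * (7 / 8 - FF a) + ∑ k, x k * FF (x k) ≤ (1 - a) ^ 2 + ∑ k, x k ^ 2 :=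
    add_le_add (uFF_le a ha0 ha1) (Finset.sum_le_sum fun k _ => xFF_le _ (hx0 k) (hx1 k))
  set N := (1 - a) * (7 / 8 - FF a) + ∑ k, x k * FF (x k) with hN
  by_cases hu : 1 - a < 1 / 10
  · have hTh : ∑ k, Th (x k) ≤ 1 / 100 := by
      have h1 : ∀ k, Th (x k) ≤ 1 / 10 * x k := by
        intro k
        have := hxle k
        have := hx0 k
        rw [Th, if_pos (by linarith)]
        nlinarith
      calc ∑ k, Th (x k) ≤ ∑ k, 1 / 10 * x k := Finset.sum_le_sum fun k _ => h1 k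
        _ = 1 / 10 * ∑ k, x k := by rw [Finset.mul_sum]
        _ ≤ 1 / 100 := by linarith
    have hTa : Th a = a ^ 2 / 2 + 1 / 8 := by rw [Th, if_neg (by linarith)]
    have h1 : 0 ≤ N / l := div_nonneg hN0 hl.le
    rw [hTa]
    nlinarith
  · push Not at hu
    -- the additional coordinates
    set e : ℝ := (1 - a - ∑ k, x k) / 1000000 with he
    have hr0 : 0 ≤ 1 - a - ∑ k, x k := by linarith
    have he0 : 0 ≤ e := by rw [he]; positivity
    have he1 : e ≤ 1 / 1000000 := by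
      rw [he, div_le_div_iff_of_pos_right (by norm_num)]
      linarith
    have hre : 1000000 * e = 1 - a - ∑ k, x k := by rw [he]; ring
    let v : Fin m ⊕ Fin 1000000 → ℝ := Sum.elim x (fun _ => e)
    have hs : ∀ f : ℝ → ℝ, ∑ k, f (v k) = ∑ k, f (x k) + 1000000 * f e := by
      intro f
      rw [Fintype.sum_sum_type]
      simp [v]
    have hq0 : 0 ≤ ∑ k, x k ^ 2 := Finset.sum_nonneg fun k _ => sq_nonneg _
    have hl'2 : 0 ≤ (1 - a) ^ 2 + ∑ k, v k ^ 2 :=
      add_nonneg (sq_nonneg _) (Finset.sum_nonneg fun k _ => sq_nonneg _)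
    set l' : ℝ := √((1 - a) ^ 2 + ∑ k, v k ^ 2) with hl'
    have hsq : l' ^ 2 = (1 - a) ^ 2 + ∑ k, v k ^ 2 := Real.sq_sqrt hl'2
    have hsq' : l' ^ 2 = (1 - a) ^ 2 + (∑ k, x k ^ 2 + 1000000 * e ^ 2) := by
      rw [hsq, hs (fun y => y ^ 2)]
    have hMe : 1000000 * e ^ 2 ≤ 1 / 1000000 := by nlinarith
    have hMe0 : 0 ≤ 1000000 * e ^ 2 := by positivity
    have hl'1 : 1 / 10 ≤ l' := by
      rw [hl']
      apply Real.le_sqrt_of_sq_le
      have h1 : 0 ≤ ∑ k, v k ^ 2 := Finset.sum_nonneg fun k _ => sq_nonneg _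
      nlinarith
    have hcore := LFaux.core (Finset.univ) v a l' (by
        intro k _
        rcases k with k | k
        · exact hx0 k
        · exact he0) ha0 (by
        have := hs (fun y => y)
        rw [hre] at this
        linarith [this]) (by linarith) hsq
    have hTv := hs Th
    have hFv := hs (fun y => y * FF y)
    rw [hTv, hFv] at hcore
    have hTe : Th e = e ^ 2 := by rw [Th, if_pos (by linarith)]
    have hFe : FF e = 2 * e ^ 2 := by rw [FF, if_pos (by linarith)]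
    rw [hTe, hFe] at hcore
    have hcl := close l l' N (N + 1000000 * (e * (2 * e ^ 2))) hl hl'1 hN0 (by linarith) (by
        have : e * (2 * e ^ 2) = 2 * e * e ^ 2 := by ring
        rw [this]
        have h1 : 1000000 * (2 * e * e ^ 2) = 2 * e * (1000000 * e ^ 2) := by ring
        rw [h1]
        nlinarith) (by
        rw [abs_le] at hlq ⊢
        constructor <;> linarith [hlq.1, hlq.2])
    have e2 : (1 - a) * (7 / 8 - FF a) + (∑ k, x k * FF (x k) + 1000000 * (e * (2 * e ^ 2))) =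
        N + 1000000 * (e * (2 * e ^ 2)) := by rw [hN]; ring
    rw [e2] at hcore
    linarith

end LX
end H11ST
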